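import Pool.Agent.H381R4.BP.Stubs

/-! Task HBD of project BP: upper bound of `h_L` for bounded `L`. -/

set_option autoImplicit false
open MeasureTheory Matrix Filter Topology
open scoped ENNReal BigOperators Pointwise

namespace Pool.Agent.H473BP.HBD
open Pool.Agent.H381CM Pool.Agent.H381BP

theorem T_HBD : S_HBD := by
  intro d m _ L R hR hL x hx
  set ρ : ℝ := Real.sqrt (∑ i, x i ^ 2) with hρ
  have hsum : 0 < ∑ i, x i ^ 2 := by
    obtain ⟨i, hi⟩ := Function.ne_iff.1 hx
    exact Finset.sum_pos' (fun _ _ => sq_nonneg _) ⟨i, Finset.mem_univ i, by have h := hi; simp only [Pi.zero_apply] at h; positivity⟩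
  have hρ0 : 0 < ρ := Real.sqrt_pos.2 hsum
  have hρ2 : ρ ^ 2 = ∑ i, x i ^ 2 := Real.sq_sqrt hsum.le
  have hsub : {v : E m | ‖v‖ • x ∈ L} ⊆ Metric.closedBall (0 : E m) (R / ρ) := by
    intro v hv
    rw [mem_closedBall_zero_iff, le_div_iff₀ hρ0]
    have h1 := hL _ hv
    have h2 : ∑ i, (‖v‖ • x) i ^ 2 = (‖v‖ * ρ) ^ 2 := by
      rw [mul_pow, hρ2, Finset.mul_sum]
      refine Finset.sum_congr rfl fun i _ => ?_
      rw [Pi.smul_apply, smul_eq_mul, mul_pow]
    rw [h2] at h1
    exact (sq_le_sq₀ (by positivity) hR.le).1 h1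
  calc hh m L x ≤ volume (Metric.closedBall (0 : E m) (R / ρ)) := measure_mono hsub
    _ = ENNReal.ofReal ((R / ρ) ^ m) * om m := by
        rw [Measure.addHaar_closedBall' _ _ (by positivity)]
        simp [om]
    _ = om m * ENNReal.ofReal (R ^ m / ρ ^ m) := by rw [div_pow, mul_comm]

end Pool.Agent.H473BP.HBD
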